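import Pool.Agent.W2helper55.PB.Pos

/-!
# Deterministic partially blind and general counter machines under constant reversals

For deterministic quasi-realtime one-way multicounter machines the partially blind and the
general ones accept the same languages with at most `c` reversals if and only if `c = 0`.
For `c ≥ 1` the language of the words `a^n b^m` with `n ≤ m` is accepted by a deterministic
realtime machine with one counter, with one reversal, but by no deterministic quasi-realtime
partially blind machine, whatever number of reversals is allowed.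
-/

set_option autoImplicit false

namespace Pool.Agent.W2helper55.Unused.OnlyWithoutReversals

open Pool.Agent.W2helper55.PB

theorem result (c : ℕ) :
    ((∀ (S : Type) [Finite S] (L : Set (List S)),
      (∃ B : CM S, B.Blind ∧ B.Det ∧ B.QR ∧ B.lang c = L) ↔
        ∃ M : CM S, M.Det ∧ M.QR ∧ M.lang c = L) ↔ c = 0) ∧
    (1 ≤ c → ∃ M : CM Bool, M.Det ∧ M.QR ∧
      (∀ q s Z m, m ∈ M.mv q s Z → s ≠ none ∧ m.2.1 = true) ∧
      ∀ B : CM Bool, B.Blind → B.Det → B.QR → ∀ c' : ℕ, B.lang c' ≠ M.lang c) := by
  refine ⟨main c, fun hc => ⟨MM, MM_det, MM_qr, ?_, fun B h1 h2 h3 c' => ?_⟩⟩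
  · rintro q s Z m (⟨_, h, rfl⟩ | ⟨h, _, rfl⟩ | ⟨h, _, rfl⟩) <;> exact ⟨by rw [h]; simp, rfl⟩
  · rw [MM_lang hc]
    exact not_LAB B h2 h1 h3 c'

end Pool.Agent.W2helper55.Unused.OnlyWithoutReversals
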